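import Pool.Agent.Helper30.PL.Goals

set_option autoImplicit false

/-!
MP_b4564f_an, packet HALF (project of helper30): global convergence for `k = 2` and `p ≤ 1/2`.
-/

open Filter Topology

namespace Pool.Agent.Helper32.PL

open Pool.Agent.Helper30.PL

/-- A positive limit is `1`. -/
theorem lim_one {p L : ℝ} {X : ℕ → ℝ} (hp : 0 < p)
    (hrec : ∀ n, X (n + 3) * (1 - p + p * X n) = X (n + 2)) (hL : 0 < L)
    (h : Tendsto X atTop (𝓝 L)) : L = 1 := by
  have h3 : Tendsto (fun n => X (n + 3)) atTop (𝓝 L) := (tendsto_add_atTop_iff_nat 3).2 h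
  have h2 : Tendsto (fun n => X (n + 2)) atTop (𝓝 L) := (tendsto_add_atTop_iff_nat 2).2 h
  have h4 : Tendsto (fun n => X (n + 3) * (1 - p + p * X n)) atTop
      (𝓝 (L * (1 - p + p * L))) := h3.mul ((h.const_mul p).const_add (1 - p))
  have h5 : L * (1 - p + p * L) = L :=
    tendsto_nhds_unique (h4.congr fun n => hrec n) h2
  have h6 : L * (p * (L - 1)) = 0 := by linarith
  rcases mul_eq_zero.1 h6 with h7 | h7
  · exact absurd h7 hL.ne'
  · rcases mul_eq_zero.1 h7 with h8 | h8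
    · exact absurd h8 hp.ne'
    · linarith

/-- The step up. -/
theorem up {p : ℝ} {X : ℕ → ℝ} (hp : 0 < p) (hp1 : p < 1) (hX : ∀ n, 0 < X n)
    (hrec : ∀ n, X (n + 3) * (1 - p + p * X n) = X (n + 2)) {m : ℝ} (hm0 : 0 ≤ m) (hm1 : m ≤ 1)
    (hm : ∀ᶠ n in atTop, m ≤ X n) :
    Tendsto X atTop (𝓝 1) ∨ ∀ᶠ n in atTop, X n * (1 - p + p * m) ^ 2 ≤ 1 := by
  obtain ⟨N, hN⟩ := eventually_atTop.1 hm
  have hg0 : 0 < 1 - p + p * m := by nlinarith
  have hg1 : 1 - p + p * m ≤ 1 := by nlinarith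
  have key : ∀ i, N ≤ i → X (i + 4) ≤ X (i + 5) → X (i + 5) * (1 - p + p * m) ^ 2 ≤ 1 := by
    intro i hi hle
    have e1 := hrec i
    have e2 := hrec (i + 1)
    have e3 := hrec (i + 2)
    have f0 : m ≤ X i := hN i hi
    have f1 : m ≤ X (i + 1) := hN _ (by omega)
    have c0 : 1 - p + p * m ≤ 1 - p + p * X i := by nlinarith
    have c1 : 1 - p + p * m ≤ 1 - p + p * X (i + 1) := by nlinarith
    have hA : X (i + 2) ≤ 1 := by
      by_contra hc
      push Not at hc
      have h1 : X (i + 5) * (p * (X (i + 2) - 1)) ≤ 0 := by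
        have h2 : X (i + 2 + 3) * (1 - p + p * X (i + 2)) = X (i + 2 + 2) := e3
        have h3 : X (i + 5) * (1 - p + p * X (i + 2)) = X (i + 4) := h2
        nlinarith
      have h4 : 0 < X (i + 5) * (p * (X (i + 2) - 1)) :=
        mul_pos (hX _) (mul_pos hp (by linarith))
      linarith
    have e3' : X (i + 5) * (1 - p + p * X (i + 2)) = X (i + 4) := e3
    have e2' : X (i + 4) * (1 - p + p * X (i + 1)) = X (i + 3) := e2
    -- `X (i+5) (q + p A) (..) (..) = A`
    have e4 : X (i + 5) * (1 - p + p * X (i + 2)) * (1 - p + p * X (i + 1)) *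
        (1 - p + p * X i) = X (i + 2) := by
      rw [e3', e2', e1]
    have h5 : X (i + 5) * (1 - p + p * X (i + 2)) * ((1 - p + p * m) * (1 - p + p * m)) ≤
        X (i + 2) := by
      have hpos : 0 ≤ X (i + 5) * (1 - p + p * X (i + 2)) := by rw [e3']; exact (hX _).le
      have hmul : (1 - p + p * m) * (1 - p + p * m) ≤
          (1 - p + p * X (i + 1)) * (1 - p + p * X i) :=
        mul_le_mul c1 c0 hg0.le (hg0.le.trans c1)
      calc _ ≤ X (i + 5) * (1 - p + p * X (i + 2)) *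
            ((1 - p + p * X (i + 1)) * (1 - p + p * X i)) :=
          mul_le_mul_of_nonneg_left hmul hpos
        _ = X (i + 5) * (1 - p + p * X (i + 2)) * (1 - p + p * X (i + 1)) *
            (1 - p + p * X i) := by ring
        _ = X (i + 2) := e4
    have h6 : X (i + 2) ≤ 1 - p + p * X (i + 2) := by nlinarith
    have h7 : 0 < 1 - p + p * X (i + 2) := by nlinarith [hX (i + 2)]
    have h8 : X (i + 5) * (1 - p + p * m) ^ 2 * (1 - p + p * X (i + 2)) ≤
        1 * (1 - p + p * X (i + 2)) := by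
      calc _ = X (i + 5) * (1 - p + p * X (i + 2)) * ((1 - p + p * m) * (1 - p + p * m)) := by
            ring
        _ ≤ X (i + 2) := h5
        _ ≤ _ := by rw [one_mul]; exact h6
    exact le_of_mul_le_mul_right h8 h7
  by_cases hk : ∃ k, N + 4 ≤ k ∧ X k * (1 - p + p * m) ^ 2 ≤ 1
  · right
    obtain ⟨k, hk, hk'⟩ := hk
    refine eventually_atTop.2 ⟨k, fun n hn => ?_⟩
    induction n, hn using Nat.le_induction with
    | base => exact hk'
    | succ n hn ih =>
      obtain ⟨i, rfl⟩ := Nat.exists_eq_add_of_le (show 4 ≤ n by omega)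
      rcases le_total (X (4 + i)) (X (4 + i + 1)) with h1 | h1
      · have h2 := key i (by omega)
        rw [show i + 4 = 4 + i by ring, show i + 5 = 4 + i + 1 by ring] at h2
        exact h2 h1
      · exact le_trans (mul_le_mul_of_nonneg_right h1 (by positivity)) ih
  · left
    push Not at hk
    have hdec : ∀ n, X (n + 1 + (N + 4)) ≤ X (n + (N + 4)) := by
      intro n
      by_contra hc
      push Not at hc
      have h1 := key (n + N) (by omega)
      rw [show n + N + 4 = n + (N + 4) by ring, show n + N + 5 = n + 1 + (N + 4) by ring] at h1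
      have h2 := hk (n + 1 + (N + 4)) (by omega)
      have h3 := h1 hc.le
      linarith
    have hanti : Antitone (fun n => X (n + (N + 4))) := antitone_nat_of_succ_le hdec
    have hbd : BddBelow (Set.range (fun n => X (n + (N + 4)))) :=
      ⟨0, by rintro _ ⟨n, rfl⟩; exact (hX _).le⟩
    have hconv := tendsto_atTop_ciInf hanti hbd
    set L := ⨅ n, X (n + (N + 4)) with hL
    have hXL : Tendsto X atTop (𝓝 L) := (tendsto_add_atTop_iff_nat (N + 4)).1 hconv
    have hL1 : 1 ≤ L := by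
      refine le_ciInf fun n => ?_
      have h2 := hk (n + (N + 4)) (by omega)
      have h3 : (1 - p + p * m) ^ 2 ≤ 1 := pow_le_one₀ hg0.le hg1
      nlinarith [hX (n + (N + 4))]
    have := lim_one hp hrec (by linarith) hXL
    rwa [this] at hXL

/-- The step down. -/
theorem down {p : ℝ} {X : ℕ → ℝ} (hp : 0 < p) (hp1 : p < 1) (hX : ∀ n, 0 < X n)
    (hrec : ∀ n, X (n + 3) * (1 - p + p * X n) = X (n + 2)) {B : ℝ} (hB1 : 1 ≤ B)
    (hB : ∀ᶠ n in atTop, X n ≤ B) :
    Tendsto X atTop (𝓝 1) ∨ ∀ᶠ n in atTop, 1 ≤ X n * (1 - p + p * B) ^ 2 := by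
  obtain ⟨N, hN⟩ := eventually_atTop.1 hB
  have hG1 : 1 ≤ 1 - p + p * B := by nlinarith
  have key : ∀ i, N ≤ i → X (i + 5) ≤ X (i + 4) → 1 ≤ X (i + 5) * (1 - p + p * B) ^ 2 := by
    intro i hi hle
    have e1 := hrec i
    have e2' : X (i + 4) * (1 - p + p * X (i + 1)) = X (i + 3) := hrec (i + 1)
    have e3' : X (i + 5) * (1 - p + p * X (i + 2)) = X (i + 4) := hrec (i + 2)
    have f0 : X i ≤ B := hN i hi
    have f1 : X (i + 1) ≤ B := hN _ (by omega)
    have c0 : 1 - p + p * X i ≤ 1 - p + p * B := by nlinarith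
    have c1 : 1 - p + p * X (i + 1) ≤ 1 - p + p * B := by nlinarith
    have d0 : 0 < 1 - p + p * X i := by nlinarith [hX i]
    have d1 : 0 < 1 - p + p * X (i + 1) := by nlinarith [hX (i + 1)]
    have hA : 1 ≤ X (i + 2) := by
      by_contra hc
      push Not at hc
      have h1 : 0 ≤ X (i + 5) * (p * (X (i + 2) - 1)) := by nlinarith
      have h4 : X (i + 5) * (p * (X (i + 2) - 1)) < 0 :=
        mul_neg_of_pos_of_neg (hX _) (mul_neg_of_pos_of_neg hp (by linarith))
      linarith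
    have e4 : X (i + 5) * (1 - p + p * X (i + 2)) * (1 - p + p * X (i + 1)) *
        (1 - p + p * X i) = X (i + 2) := by
      rw [e3', e2', e1]
    have h5 : X (i + 2) ≤
        X (i + 5) * (1 - p + p * X (i + 2)) * ((1 - p + p * B) * (1 - p + p * B)) := by
      have hpos : 0 ≤ X (i + 5) * (1 - p + p * X (i + 2)) := by rw [e3']; exact (hX _).le
      have hmul : (1 - p + p * X (i + 1)) * (1 - p + p * X i) ≤
          (1 - p + p * B) * (1 - p + p * B) :=
        mul_le_mul c1 c0 d0.le (by linarith)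
      calc X (i + 2) = X (i + 5) * (1 - p + p * X (i + 2)) * (1 - p + p * X (i + 1)) *
            (1 - p + p * X i) := e4.symm
        _ = X (i + 5) * (1 - p + p * X (i + 2)) *
            ((1 - p + p * X (i + 1)) * (1 - p + p * X i)) := by ring
        _ ≤ _ := mul_le_mul_of_nonneg_left hmul hpos
    have h6 : 1 - p + p * X (i + 2) ≤ X (i + 2) := by nlinarith
    have h7 : 0 < 1 - p + p * X (i + 2) := by nlinarith [hX (i + 2)]
    have h8 : 1 * (1 - p + p * X (i + 2)) ≤
        X (i + 5) * (1 - p + p * B) ^ 2 * (1 - p + p * X (i + 2)) := by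
      calc 1 * (1 - p + p * X (i + 2)) ≤ X (i + 2) := by rw [one_mul]; exact h6
        _ ≤ X (i + 5) * (1 - p + p * X (i + 2)) * ((1 - p + p * B) * (1 - p + p * B)) := h5
        _ = _ := by ring
    exact le_of_mul_le_mul_right h8 h7
  by_cases hk : ∃ k, N + 4 ≤ k ∧ 1 ≤ X k * (1 - p + p * B) ^ 2
  · right
    obtain ⟨k, hk, hk'⟩ := hk
    refine eventually_atTop.2 ⟨k, fun n hn => ?_⟩
    induction n, hn using Nat.le_induction with
    | base => exact hk'
    | succ n hn ih =>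
      obtain ⟨i, rfl⟩ := Nat.exists_eq_add_of_le (show 4 ≤ n by omega)
      rcases le_total (X (4 + i + 1)) (X (4 + i)) with h1 | h1
      · have h2 := key i (by omega)
        rw [show i + 4 = 4 + i by ring, show i + 5 = 4 + i + 1 by ring] at h2
        exact h2 h1
      · exact le_trans ih (mul_le_mul_of_nonneg_right h1 (by positivity))
  · left
    push Not at hk
    have hinc : ∀ n, X (n + (N + 4)) ≤ X (n + 1 + (N + 4)) := by
      intro n
      by_contra hc
      push Not at hc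
      have h1 := key (n + N) (by omega)
      rw [show n + N + 4 = n + (N + 4) by ring, show n + N + 5 = n + 1 + (N + 4) by ring] at h1
      have h2 := hk (n + 1 + (N + 4)) (by omega)
      have h3 := h1 hc.le
      linarith
    have hmono : Monotone (fun n => X (n + (N + 4))) := monotone_nat_of_le_succ hinc
    have hbd : BddAbove (Set.range (fun n => X (n + (N + 4)))) :=
      ⟨B, by rintro _ ⟨n, rfl⟩; exact hN _ (by omega)⟩
    have hconv := tendsto_atTop_ciSup hmono hbd
    set L := ⨆ n, X (n + (N + 4)) with hL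
    have hXL : Tendsto X atTop (𝓝 L) := (tendsto_add_atTop_iff_nat (N + 4)).1 hconv
    have hL0 : 0 < L := lt_of_lt_of_le (hX _) (le_ciSup hbd 0)
    have := lim_one hp hrec hL0 hXL
    rwa [this] at hXL

/-- The final inequality. -/
theorem fin {p M I : ℝ} (hp : 0 < p) (hp2 : p ≤ 1 / 2) (hI1 : I ≤ 1) (hM1 : 1 ≤ M) (hI0 : 0 < I)
    (h1 : M * (1 - p + p * I) ^ 2 ≤ 1) (h2 : 1 ≤ I * (1 - p + p * M) ^ 2) : M = 1 ∧ I = 1 := by
  set x := √M with hx
  set y := √I with hy
  have hx2 : x ^ 2 = M := Real.sq_sqrt (by linarith)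
  have hy2 : y ^ 2 = I := Real.sq_sqrt hI0.le
  have hx1 : 1 ≤ x := Real.one_le_sqrt.2 hM1
  have hy1 : y ≤ 1 := Real.sqrt_le_one.2 hI1
  have hy0 : 0 < y := Real.sqrt_pos.2 hI0
  have hx0 : 0 < x := by linarith
  rw [← hx2, ← hy2] at h1 h2
  have k1 : x * (1 - p + p * y ^ 2) ≤ 1 := by
    have h3 : (x * (1 - p + p * y ^ 2)) ^ 2 ≤ 1 ^ 2 := by
      calc _ = x ^ 2 * (1 - p + p * y ^ 2) ^ 2 := by ring
        _ ≤ 1 := h1
        _ = 1 ^ 2 := by ring
    exact le_of_sq_le_sq h3 zero_le_one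
  have k2 : 1 ≤ y * (1 - p + p * x ^ 2) := by
    have h3 : 1 ^ 2 ≤ (y * (1 - p + p * x ^ 2)) ^ 2 := by
      calc (1 : ℝ) ^ 2 = 1 := by ring
        _ ≤ y ^ 2 * (1 - p + p * x ^ 2) ^ 2 := h2
        _ = _ := by ring
    have h4 : 0 ≤ 1 - p + p * x ^ 2 := by nlinarith [sq_nonneg x]
    exact le_of_sq_le_sq h3 (by positivity)
  have k3 : (x - y) * (1 - p - p * (x * y)) ≤ 0 := by nlinarith
  have k4 : y ≤ 1 - p + p * y ^ 2 := by nlinarith
  have hq0 : 0 < 1 - p + p * y ^ 2 := lt_of_lt_of_le hy0 k4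
  have k5 : x * y * (1 - p + p * y ^ 2) ≤ y := by nlinarith
  have k6 : x * y ≤ 1 := by
    have h3 : x * y * (1 - p + p * y ^ 2) ≤ 1 * (1 - p + p * y ^ 2) := by linarith
    exact le_of_mul_le_mul_right h3 hq0
  have hxy : x = y := by
    by_contra hne
    have hlt : 0 < x - y := by
      rcases lt_or_gt_of_ne hne with h | h
      · linarith
      · linarith
    have h3 : 1 - p - p * (x * y) ≤ 0 := by
      by_contra hc
      push Not at hc
      have := mul_pos hlt hc
      linarith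
    have h4 : p * (x * y) ≤ p * 1 := mul_le_mul_of_nonneg_left k6 hp.le
    have h5 : p = 1 / 2 := by linarith
    have h6 : x * y = 1 := by
      rw [h5] at h3
      linarith
    rw [h6, h5] at k5
    have h7 : (1 - y) ^ 2 ≤ 0 := by nlinarith
    have h8 : 1 - y = 0 := by
      have := sq_nonneg (1 - y)
      exact pow_eq_zero_iff (two_ne_zero) |>.1 (le_antisymm h7 this)
    have h9 : y = 1 := by linarith
    rw [h9, mul_one] at h6
    exact hne (by rw [h6, h9])
  have hx1' : x = 1 := le_antisymm (by rw [hxy]; exact hy1) hx1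
  have hy1' : y = 1 := by rw [← hxy]; exact hx1'
  rw [← hx2, ← hy2, hx1', hy1']
  norm_num

/-- The packet HALF. -/
theorem half : HalfStmt := by
  intro p X hp hp2 hX hrec
  by_contra hnot
  have hp1 : p < 1 := by linarith
  have U : ∀ m : ℝ, 0 ≤ m → m ≤ 1 → (∀ᶠ n in atTop, m ≤ X n) →
      ∀ᶠ n in atTop, X n * (1 - p + p * m) ^ 2 ≤ 1 := fun m h0 h1 h2 =>
    (up hp hp1 hX hrec h0 h1 h2).resolve_left hnot
  have D : ∀ B : ℝ, 1 ≤ B → (∀ᶠ n in atTop, X n ≤ B) →
      ∀ᶠ n in atTop, 1 ≤ X n * (1 - p + p * B) ^ 2 := fun B h1 h2 =>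
    (down hp hp1 hX hrec h1 h2).resolve_left hnot
  set SI : Set ℝ := {m | 0 ≤ m ∧ m ≤ 1 ∧ ∀ᶠ n in atTop, m ≤ X n} with hSI
  set SM : Set ℝ := {B | 1 ≤ B ∧ ∀ᶠ n in atTop, X n ≤ B} with hSM
  have h0I : (0 : ℝ) ∈ SI := ⟨le_rfl, zero_le_one, Eventually.of_forall fun n => (hX n).le⟩
  have hIbd : BddAbove SI := ⟨1, fun m hm => hm.2.1⟩
  have hMbd : BddBelow SM := ⟨1, fun B hB => hB.1⟩
  have U' : ∀ m ∈ SI, 1 / (1 - p + p * m) ^ 2 ∈ SM := by
    rintro m ⟨h0, h1, h2⟩
    have hg0 : 0 < 1 - p + p * m := by nlinarith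
    have hg1 : 1 - p + p * m ≤ 1 := by nlinarith
    refine ⟨?_, (U m h0 h1 h2).mono fun n hn => ?_⟩
    · rw [le_div_iff₀ (by positivity), one_mul]
      exact pow_le_one₀ hg0.le hg1
    · rw [le_div_iff₀ (by positivity)]
      exact hn
  have D' : ∀ B ∈ SM, 1 / (1 - p + p * B) ^ 2 ∈ SI := by
    rintro B ⟨h1, h2⟩
    have hG1 : 1 ≤ 1 - p + p * B := by nlinarith
    refine ⟨by positivity, ?_, (D B h1 h2).mono fun n hn => ?_⟩
    · rw [div_le_iff₀ (by positivity), one_mul]
      exact one_le_pow₀ hG1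
    · rw [div_le_iff₀ (by positivity)]
      exact hn
  have hMne : SM.Nonempty := ⟨_, U' 0 h0I⟩
  set I := sSup SI with hI
  set M := sInf SM with hM
  have hI1 : I ≤ 1 := csSup_le ⟨0, h0I⟩ fun m hm => hm.2.1
  have hM1 : 1 ≤ M := le_csInf hMne fun B hB => hB.1
  have hI0' : 0 ≤ I := le_csSup hIbd h0I
  have k1 : M * (1 - p + p * I) ^ 2 ≤ 1 := by
    by_contra hc
    push Not at hc
    have hcont : Tendsto (fun t : ℝ => M * (1 - p + p * t) ^ 2) (𝓝 I)
        (𝓝 (M * (1 - p + p * I) ^ 2)) := by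
      have : Continuous (fun t : ℝ => M * (1 - p + p * t) ^ 2) := by fun_prop
      exact this.tendsto I
    have h1 := hcont.eventually (lt_mem_nhds hc)
    obtain ⟨δ, hδ, h2⟩ := Metric.eventually_nhds_iff.1 h1
    obtain ⟨m, hm, hm'⟩ := exists_lt_of_lt_csSup ⟨0, h0I⟩ (show I - δ < sSup SI by
      rw [← hI]; linarith)
    have hmI : m ≤ I := le_csSup hIbd hm
    have h3 := h2 (y := m) (by rw [Real.dist_eq, abs_lt]; constructor <;> linarith)
    have h4 : M ≤ 1 / (1 - p + p * m) ^ 2 := csInf_le hMbd (U' m hm)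
    have hg0 : 0 < 1 - p + p * m := by nlinarith [hm.1]
    rw [le_div_iff₀ (by positivity)] at h4
    linarith
  have k2 : 1 ≤ I * (1 - p + p * M) ^ 2 := by
    by_contra hc
    push Not at hc
    have hcont : Tendsto (fun t : ℝ => I * (1 - p + p * t) ^ 2) (𝓝 M)
        (𝓝 (I * (1 - p + p * M) ^ 2)) := by
      have : Continuous (fun t : ℝ => I * (1 - p + p * t) ^ 2) := by fun_prop
      exact this.tendsto M
    have h1 := hcont.eventually (gt_mem_nhds hc)
    obtain ⟨δ, hδ, h2⟩ := Metric.eventually_nhds_iff.1 h1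
    obtain ⟨B, hB, hB'⟩ := exists_lt_of_csInf_lt hMne (show sInf SM < M + δ by
      rw [← hM]; linarith)
    have hBM : M ≤ B := csInf_le hMbd hB
    have h3 := h2 (y := B) (by rw [Real.dist_eq, abs_lt]; constructor <;> linarith)
    have h4 : 1 / (1 - p + p * B) ^ 2 ≤ I := le_csSup hIbd (D' B hB)
    have hG0 : 0 < 1 - p + p * B := by nlinarith [hB.1]
    rw [div_le_iff₀ (by positivity)] at h4
    linarith
  have hI0 : 0 < I := by
    rcases hI0'.eq_or_lt with h | h
    · rw [← h, zero_mul] at k2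
      linarith
    · exact h
  obtain ⟨hMe, hIe⟩ := fin hp hp2 hI1 hM1 hI0 k1 k2
  apply hnot
  rw [Metric.tendsto_nhds]
  intro ε hε
  obtain ⟨m, hm, hm'⟩ := exists_lt_of_lt_csSup ⟨0, h0I⟩ (show 1 - ε < sSup SI by
    rw [← hI, hIe]; linarith)
  obtain ⟨B, hB, hB'⟩ := exists_lt_of_csInf_lt hMne (show sInf SM < 1 + ε by
    rw [← hM, hMe]; linarith)
  filter_upwards [hm.2.2, hB.2] with n h1 h2
  rw [Real.dist_eq, abs_lt]
  constructor <;> linarith

end Pool.Agent.Helper32.PL
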