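import Pool.Agent.Helper82.PL.Defs

/-!
Packet R: algebraic bounds for the rational functions `Rr`, `R1`, `R2`, `Rz`, uniformly in `l`.
-/

set_option autoImplicit false

namespace Pool.Agent.Helper32.PL

open Pool.Agent.Helper82.PL

/-- the algebraic core -/
theorem alg {L X y h p h' p' n n' M mx mxx mz : ℝ} (hL : 1 ≤ L) (hy : 0 < y) (hy1 : y ≤ 1 / 3)
    (hX : X = y ^ 2) (h0 : 0 ≤ h) (hhL : |h| ≤ L) (hh'L : |h'| ≤ L) (hpL : |p| ≤ L)
    (hp'L : |p'| ≤ L) (hnL : |n| ≤ L) (hn'L : |n'| ≤ L) (hn : L⁻¹ ≤ n) (hhp : L⁻¹ ≤ h ^ 2 + p ^ 2)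
    (hM : M = 3 * h ^ 2 + X * (p ^ 2 + 4 * h * p + h ^ 2) + 3 * X ^ 2 * p ^ 2)
    (hmx : mx = 2 * X * (p ^ 2 + 4 * h * p + h ^ 2) + 12 * X ^ 2 * p ^ 2)
    (hmxx : mxx = 4 * X * (p ^ 2 + 4 * h * p + h ^ 2) + 48 * X ^ 2 * p ^ 2)
    (hmz : mz = 6 * h * h' + X * (2 * p * p' + 4 * h' * p + 4 * h * p' + 2 * h * h') +
      6 * X ^ 2 * p * p') :
    0 < M ∧ 0 < X * n / M ∧ X * n / M ≤ L ^ 2 ∧ mx / M ≤ 3 ∧ -18 ≤ mx / M ∧ |mxx / M| ≤ 60 ∧
      |h| * (X * n / M) ≤ L ^ 2 * y ∧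
      y * |(X * n' - X * n / M * mz) / M| ≤ 13 * L ^ 5 ∧
      (h = 0 → (13 * L ^ 5)⁻¹ ≤ X * n / M) := by
  have hL0 : (0 : ℝ) < L := by linarith
  have hX0 : 0 < X := by rw [hX]; positivity
  have hX1 : X ≤ 1 / 9 := by rw [hX]; nlinarith
  have hn0 : 0 < n := lt_of_lt_of_le (inv_pos.2 hL0) hn
  have hnL' : n ≤ L := (le_abs_self n).trans hnL
  have e1 : M = (h ^ 2 + X * p ^ 2) * (1 + X) + 2 * (h + X * p) ^ 2 := by rw [hM]; ring
  have hM1 : h ^ 2 + X * p ^ 2 ≤ M := by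
    rw [e1]
    have h9 : 0 ≤ (h ^ 2 + X * p ^ 2) * X := by positivity
    linarith [sq_nonneg (h + X * p)]
  have hXh0 : X * h ^ 2 ≤ h ^ 2 := by
    calc X * h ^ 2 ≤ 1 * h ^ 2 := mul_le_mul_of_nonneg_right (by linarith) (sq_nonneg h)
      _ = h ^ 2 := one_mul _
  have hXp0 : 0 ≤ X * p ^ 2 := by positivity
  have hM2 : X * L⁻¹ ≤ M := by
    have h9 : X * L⁻¹ ≤ X * (h ^ 2 + p ^ 2) := mul_le_mul_of_nonneg_left hhp hX0.le
    linarith
  have hM3 : h ^ 2 + X * L⁻¹ ≤ 2 * M := by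
    have h9 : X * L⁻¹ ≤ X * (h ^ 2 + p ^ 2) := mul_le_mul_of_nonneg_left hhp hX0.le
    linarith
  have hM0 : 0 < M := lt_of_lt_of_le (by positivity) hM2
  have hXM : X ≤ L * M := by
    have := mul_le_mul_of_nonneg_left hM2 hL0.le
    rwa [show L * (X * L⁻¹) = X by field_simp] at this
  -- h * y ≤ L * M
  have hhy : h * y ≤ L * M := by
    have h1 : h ^ 2 + X * L⁻¹ ≤ 2 * M := hM3
    have h2 : L * (h ^ 2 + X * L⁻¹) ≤ L * (2 * M) := mul_le_mul_of_nonneg_left h1 hL0.le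
    have h3 : L * (h ^ 2 + X * L⁻¹) = L * h ^ 2 + y ^ 2 := by rw [hX]; field_simp
    rw [h3] at h2
    have h4 : h ^ 2 ≤ L * h ^ 2 := by
      calc h ^ 2 = 1 * h ^ 2 := (one_mul _).symm
        _ ≤ L * h ^ 2 := mul_le_mul_of_nonneg_right hL (sq_nonneg h)
    linarith [sq_nonneg (h - y)]
  have hR0 : 0 < X * n / M := by positivity
  have hRL : X * n / M ≤ L ^ 2 := by
    rw [div_le_iff₀ hM0]
    calc X * n ≤ X * L := mul_le_mul_of_nonneg_left hnL' hX0.le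
      _ ≤ (L * M) * L := mul_le_mul_of_nonneg_right hXM hL0.le
      _ = L ^ 2 * M := by ring
  have hpp : 0 ≤ X * (p + 2 * h) ^ 2 := by positivity
  have hph : 0 ≤ X * (p + 3 * h) ^ 2 := by positivity
  have hXh : X * h ^ 2 ≤ 1 / 9 * h ^ 2 := mul_le_mul_of_nonneg_right hX1 (sq_nonneg h)
  have hXXp : X ^ 2 * p ^ 2 ≤ 1 / 9 * (X * p ^ 2) := by
    have h9 : 0 ≤ X * p ^ 2 := by positivity
    calc X ^ 2 * p ^ 2 = X * (X * p ^ 2) := by ring
      _ ≤ 1 / 9 * (X * p ^ 2) := mul_le_mul_of_nonneg_right hX1 h9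
  have hXXp0 : 0 ≤ X ^ 2 * p ^ 2 := by positivity
  have hh2 : 0 ≤ h ^ 2 := sq_nonneg h
  refine ⟨hM0, hR0, hRL, ?_, ?_, ?_, ?_, ?_, ?_⟩
  · rw [div_le_iff₀ hM0, hM, hmx]
    linarith [hph, hXh, hXXp, hh2]
  · rw [le_div_iff₀ hM0, hM, hmx]
    linarith [hpp, hXh, hXXp0, hh2]
  · rw [abs_div, abs_of_pos hM0, div_le_iff₀ hM0, abs_le, hM, hmxx]
    constructor <;> linarith [hpp, hXh, hXXp0, hh2]
  · rw [abs_of_nonneg h0, ← mul_div_assoc, div_le_iff₀ hM0]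
    calc h * (X * n) = (h * y) * (y * n) := by rw [hX]; ring
      _ ≤ (L * M) * (y * L) := by
        apply mul_le_mul hhy (mul_le_mul_of_nonneg_left hnL' hy.le) (by positivity) (by positivity)
      _ = L ^ 2 * y * M := by ring
  · rw [abs_div, abs_of_pos hM0, ← mul_div_assoc, div_le_iff₀ hM0]
    have hmzb : |mz| ≤ 6 * h * L + 13 * X * L ^ 2 := by
      have b1 : |6 * h * h'| ≤ 6 * h * L := by
        rw [abs_mul, abs_mul, abs_of_nonneg h0, abs_of_pos (by norm_num : (0 : ℝ) < 6)]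
        exact mul_le_mul_of_nonneg_left hh'L (by positivity)
      have q1 : |p * p'| ≤ L ^ 2 := by
        rw [abs_mul, sq]; exact mul_le_mul hpL hp'L (abs_nonneg _) hL0.le
      have q2 : |h' * p| ≤ L ^ 2 := by
        rw [abs_mul, sq]; exact mul_le_mul hh'L hpL (abs_nonneg _) hL0.le
      have q3 : |h * p'| ≤ L ^ 2 := by
        rw [abs_mul, sq]; exact mul_le_mul hhL hp'L (abs_nonneg _) hL0.le
      have q4 : |h * h'| ≤ L ^ 2 := by
        rw [abs_mul, sq]; exact mul_le_mul hhL hh'L (abs_nonneg _) hL0.le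
      have b2 : |2 * p * p' + 4 * h' * p + 4 * h * p' + 2 * h * h'| ≤ 12 * L ^ 2 := by
        rw [abs_le] at q1 q2 q3 q4 ⊢
        constructor <;> linarith
      have b3 : |X * (2 * p * p' + 4 * h' * p + 4 * h * p' + 2 * h * h')| ≤ X * (12 * L ^ 2) := by
        rw [abs_mul, abs_of_pos hX0]
        exact mul_le_mul_of_nonneg_left b2 hX0.le
      have b4 : |6 * X ^ 2 * p * p'| ≤ X * L ^ 2 := by
        have e : 6 * X ^ 2 * p * p' = X * (6 * X * (p * p')) := by ring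
        rw [e, abs_mul, abs_of_pos hX0]
        apply mul_le_mul_of_nonneg_left _ hX0.le
        rw [abs_mul, abs_of_pos (by positivity)]
        calc 6 * X * |p * p'| ≤ 6 * X * L ^ 2 := mul_le_mul_of_nonneg_left q1 (by positivity)
          _ ≤ 1 * L ^ 2 := by
            apply mul_le_mul_of_nonneg_right _ (by positivity)
            linarith
          _ = L ^ 2 := one_mul _
      rw [hmz]
      calc |6 * h * h' + X * (2 * p * p' + 4 * h' * p + 4 * h * p' + 2 * h * h') +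
            6 * X ^ 2 * p * p'| ≤ |6 * h * h'| +
            |X * (2 * p * p' + 4 * h' * p + 4 * h * p' + 2 * h * h')| + |6 * X ^ 2 * p * p'| :=
            (abs_add_le _ _).trans (add_le_add_left (abs_add_le _ _) _)
        _ ≤ 6 * h * L + X * (12 * L ^ 2) + X * L ^ 2 := by linarith
        _ = 6 * h * L + 13 * X * L ^ 2 := by ring
    have hymz : y * |mz| ≤ 6 * L ^ 2 * M + 13 / 3 * L ^ 3 * M := by
      calc y * |mz| ≤ y * (6 * h * L + 13 * X * L ^ 2) := mul_le_mul_of_nonneg_left hmzb hy.le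
        _ = 6 * L * (h * y) + 13 * L ^ 2 * (y * X) := by ring
        _ ≤ 6 * L * (L * M) + 13 * L ^ 2 * (1 / 3 * (L * M)) := by
          apply add_le_add
          · exact mul_le_mul_of_nonneg_left hhy (by positivity)
          · apply mul_le_mul_of_nonneg_left _ (by positivity)
            exact mul_le_mul hy1 hXM hX0.le (by norm_num)
        _ = 6 * L ^ 2 * M + 13 / 3 * L ^ 3 * M := by ring
    have hxn : y * |X * n'| ≤ 1 / 3 * L ^ 2 * M := by
      rw [abs_mul, abs_of_pos hX0]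
      calc y * (X * |n'|) ≤ 1 / 3 * ((L * M) * L) := by
            apply mul_le_mul hy1 _ (by positivity) (by norm_num)
            exact mul_le_mul hXM hn'L (abs_nonneg _) (by positivity)
        _ = 1 / 3 * L ^ 2 * M := by ring
    have hL2 : (1 : ℝ) ≤ L ^ 2 := one_le_pow₀ hL
    have hL3 : (1 : ℝ) ≤ L ^ 3 := one_le_pow₀ hL
    calc y * |X * n' - X * n / M * mz| ≤ y * (|X * n'| + |X * n / M * mz|) :=
          mul_le_mul_of_nonneg_left (abs_sub _ _) hy.le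
      _ = y * |X * n'| + (X * n / M) * (y * |mz|) := by
          rw [abs_mul (X * n / M), abs_of_pos hR0]; ring
      _ ≤ 1 / 3 * L ^ 2 * M + L ^ 2 * (6 * L ^ 2 * M + 13 / 3 * L ^ 3 * M) := by
          apply add_le_add hxn
          exact mul_le_mul hRL hymz (by positivity) (by positivity)
      _ = (1 / 3 * L ^ 2 + 6 * L ^ 4 + 13 / 3 * L ^ 5) * M := by ring
      _ ≤ 13 * L ^ 5 * M := by
          apply mul_le_mul_of_nonneg_right _ hM0.le
          have h4 : L ^ 4 ≤ L ^ 5 := by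
            calc L ^ 4 = L ^ 4 * 1 := (mul_one _).symm
              _ ≤ L ^ 4 * L := mul_le_mul_of_nonneg_left hL (by positivity)
              _ = L ^ 5 := by ring
          have h2 : L ^ 2 ≤ L ^ 5 := by
            calc L ^ 2 = L ^ 2 * 1 := (mul_one _).symm
              _ ≤ L ^ 2 * L ^ 3 := mul_le_mul_of_nonneg_left hL3 (by positivity)
              _ = L ^ 5 := by ring
          have h5 : 0 ≤ L ^ 5 := by positivity
          linarith
  · intro hz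
    rw [le_div_iff₀ hM0, inv_mul_le_iff₀ (by positivity), hM, hz]
    have hp2 : p ^ 2 ≤ L ^ 2 := sq_le_sq' (abs_le.1 hpL).1 (abs_le.1 hpL).2
    have hLn : 1 ≤ L * n := by
      have := mul_le_mul_of_nonneg_left hn hL0.le
      rwa [mul_inv_cancel₀ hL0.ne'] at this
    have h1 : 3 * (0 : ℝ) ^ 2 + X * (p ^ 2 + 4 * 0 * p + 0 ^ 2) + 3 * X ^ 2 * p ^ 2
        ≤ 4 / 3 * X * L ^ 2 := by
      have h3 : X * p ^ 2 ≤ X * L ^ 2 := mul_le_mul_of_nonneg_left hp2 hX0.le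
      linarith
    have hL2 : (1 : ℝ) ≤ L ^ 2 := one_le_pow₀ hL
    calc _ ≤ 4 / 3 * X * L ^ 2 := h1
      _ ≤ 13 * X * (L ^ 2 * (L ^ 2 * (L * n))) := by
          have h4 : L ^ 2 ≤ L ^ 2 * (L ^ 2 * (L * n)) := by
            have h7 : (1 : ℝ) ≤ L ^ 2 * (L * n) := one_le_mul_of_one_le_of_one_le hL2 hLn
            calc L ^ 2 = L ^ 2 * 1 := (mul_one _).symm
              _ ≤ _ := mul_le_mul_of_nonneg_left h7 (by positivity)
          have h5 : 0 ≤ L ^ 2 := by positivity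
          have h6 := mul_le_mul_of_nonneg_left h4 hX0.le
          have h7 := mul_nonneg hX0.le h5
          calc 4 / 3 * X * L ^ 2 = 4 / 3 * (X * L ^ 2) := by ring
            _ ≤ 13 * (X * L ^ 2) := mul_le_mul_of_nonneg_right (by norm_num) h7
            _ ≤ 13 * (X * (L ^ 2 * (L ^ 2 * (L * n)))) :=
              mul_le_mul_of_nonneg_left h6 (by norm_num)
            _ = 13 * X * (L ^ 2 * (L ^ 2 * (L * n))) := by ring
      _ = 13 * L ^ 5 * (X * n) := by ring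

theorem hh_nonneg (z : ℝ) : 0 ≤ hh z := by unfold hh; positivity

/-- Packet R. -/
theorem r_ok (h : stmtProf) : stmtR := by
  obtain ⟨L, hL, hb⟩ := h.bdd
  have hL0 : (0 : ℝ) < L := by linarith
  have hL3 : (1 : ℝ) ≤ L ^ 3 := one_le_pow₀ hL
  have hL5 : (1 : ℝ) ≤ L ^ 5 := one_le_pow₀ hL
  have hL25 : L ^ 2 ≤ 13 * L ^ 5 := by
    have : L ^ 2 * 1 ≤ L ^ 2 * L ^ 3 := mul_le_mul_of_nonneg_left hL3 (by positivity)
    have e : L ^ 2 * L ^ 3 = L ^ 5 := by ring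
    rw [e, mul_one] at this
    linarith
  refine ⟨13 * L ^ 5, by linarith, ?_⟩
  intro l hl hl1 x z hx hx1
  obtain ⟨b1, b2, -, b4, b5, b6, b7, b8, b9⟩ := hb z
  have hax : 0 < |x| := abs_pos.2 hx
  have hy : 0 < l * |x| := mul_pos hl hax
  have hy1 : l * |x| ≤ 1 / 3 := by
    calc l * |x| ≤ 1 * |x| := mul_le_mul_of_nonneg_right hl1 hax.le
      _ ≤ 1 / 3 := by rw [one_mul]; exact hx1
  have hX : (l * x) ^ 2 = (l * |x|) ^ 2 := by
    rw [mul_pow, mul_pow, sq_abs]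
  have hM : Mh l x z = 3 * hh z ^ 2 + (l * x) ^ 2 * (ph z ^ 2 + 4 * hh z * ph z + hh z ^ 2) +
      3 * ((l * x) ^ 2) ^ 2 * ph z ^ 2 := by unfold Mh; ring
  have hmx : Mx l x z = 2 * (l * x) ^ 2 * (ph z ^ 2 + 4 * hh z * ph z + hh z ^ 2) +
      12 * ((l * x) ^ 2) ^ 2 * ph z ^ 2 := by unfold Mx; ring
  have hmxx : Mxx l x z = 4 * (l * x) ^ 2 * (ph z ^ 2 + 4 * hh z * ph z + hh z ^ 2) +
      48 * ((l * x) ^ 2) ^ 2 * ph z ^ 2 := by unfold Mxx; ring
  have hmz : Mz l x z = 6 * hh z * hh' z + (l * x) ^ 2 * (2 * ph z * ph' z + 4 * hh' z * ph z +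
      4 * hh z * ph' z + 2 * hh z * hh' z) + 6 * ((l * x) ^ 2) ^ 2 * ph z * ph' z := by
    unfold Mz; ring
  obtain ⟨a1, a2, a3, a4, a5, a6, a7, a8, a9⟩ := alg hL hy hy1 hX (hh_nonneg z) b1 b2 b4 b5 b6 b7
    b8 b9 hM hmx hmxx hmz
  have hR : Rr l x z = (l * x) ^ 2 * nn z / Mh l x z := rfl
  rw [← hR] at a2 a3 a7 a8 a9
  refine ⟨a1, a2, a3.trans hL25, ?_, ?_, ?_, ?_, a8, a9⟩
  · unfold R1
    rw [mul_comm (Rr l x z)]
    exact mul_le_mul_of_nonneg_right (by linarith) a2.le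
  · unfold R1
    rw [mul_comm (Rr l x z)]
    exact mul_le_mul_of_nonneg_right (by linarith) a2.le
  · unfold R2
    rw [abs_mul, abs_of_pos a2, mul_comm]
    apply mul_le_mul_of_nonneg_right _ a2.le
    generalize Mx l x z / Mh l x z = q at *
    generalize Mxx l x z / Mh l x z = w at *
    rw [abs_le] at a6 ⊢
    have h0 := mul_nonneg (sub_nonneg.2 a4) (sub_nonneg.2 a5)
    have h1 : q ^ 2 ≤ 324 := by linarith
    have h3 := sq_nonneg q
    have h4 := sq_nonneg (10 - q)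
    constructor <;> linarith
  · exact a7.trans (mul_le_mul_of_nonneg_right hL25 hy.le)

end Pool.Agent.Helper32.PL
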